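import Mathlib

/-!
Pair correlation of `n² α`: definitions shared by the modules.
-/

open Finset

namespace Pool.Agent.Helper7.PC

/-- distance to the nearest integer -/
noncomputable def nd (x : ℝ) : ℝ := |x - round x|

lemma nd_nonneg (x : ℝ) : 0 ≤ nd x := abs_nonneg _

lemma nd_le (x : ℝ) (z : ℤ) : nd x ≤ |x - z| := round_le x z

lemma nd_le_half (x : ℝ) : nd x ≤ 1 / 2 := abs_sub_round x

lemma nd_le_abs (x : ℝ) : nd x ≤ |x| := by simpa using nd_le x 0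

lemma nd_lt_iff {x δ : ℝ} : nd x < δ ↔ ∃ z : ℤ, |x - z| < δ :=
  ⟨fun h => ⟨round x, h⟩, fun ⟨z, hz⟩ => (nd_le x z).trans_lt hz⟩

lemma nd_le_iff {x δ : ℝ} : nd x ≤ δ ↔ ∃ z : ℤ, |x - z| ≤ δ :=
  ⟨fun h => ⟨round x, h⟩, fun ⟨z, hz⟩ => (nd_le x z).trans hz⟩

lemma nd_add_int (x : ℝ) (z : ℤ) : nd (x + z) = nd x := by
  unfold nd
  rw [round_add_intCast]
  push_cast
  congr 1
  ring

lemma nd_neg (x : ℝ) : nd (-x) = nd x := by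
  apply le_antisymm
  · refine (nd_le (-x) (-round x)).trans (le_of_eq ?_)
    rw [nd, ← abs_neg]
    push_cast
    congr 1
    ring
  · refine (nd_le x (-round (-x))).trans (le_of_eq ?_)
    rw [nd, ← abs_neg]
    push_cast
    congr 1
    ring

lemma nd_add_le (x y : ℝ) : nd (x + y) ≤ nd x + nd y := by
  refine (nd_le (x + y) (round x + round y)).trans ?_
  unfold nd
  push_cast
  calc |x + y - (round x + round y)| = |(x - round x) + (y - round y)| := by congr 1; ring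
    _ ≤ _ := abs_add_le _ _

/-- quantitative Diophantine condition -/
def Dio (c ε α : ℝ) : Prop := ∀ q : ℕ, 1 ≤ q → c * (q : ℝ) ^ (-1 - ε) ≤ nd (q * α)

/-- number of `v ∈ (cN, dN] with `v ≡ h mod 2`, `e ∣ v` and `‖v β‖ < s/N` -/
noncomputable def cnt (s : ℝ) (N : ℕ) (c d : ℝ) (h e : ℕ) (β : ℝ) : ℕ :=
  ((Icc 1 (2 * N)).filter fun v : ℕ =>
    c * N < v ∧ (v : ℝ) ≤ d * N ∧ v % 2 = h ∧ e ∣ v ∧ nd (v * β) < s / N).card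

/-- number of `v ≤ 2N` with `‖v β‖ < s/N` -/
noncomputable def cnt0 (s : ℝ) (N : ℕ) (β : ℝ) : ℕ :=
  ((Icc 1 (2 * N)).filter fun v : ℕ => nd (v * β) < s / N).card

/-- the lattice of `β` at the scale `N √D` has no vector of length at most `ρ` -/
def Gen (N : ℕ) (D ρ β : ℝ) : Prop :=
  ∀ r : ℕ, 1 ≤ r → (r : ℝ) ≤ ρ * (N * √D) → ρ / (N * √D) < nd (r * β)

/-- primes in (P, Q] -/
def pr (P Q : ℕ) : Finset ℕ := (Ioc P Q).filter Nat.Prime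

/-- equidistribution for primes in short subintervals of `[D, 2D] -/
def Good (s : ℝ) (N : ℕ) (c d : ℝ) (h : ℕ) (ε : ℝ) (D : ℕ) (β : ℝ) : Prop :=
  ∀ P Q e : ℕ, D ≤ P → P ≤ Q → Q ≤ 2 * D → (Q : ℝ) ≤ P + (D : ℝ) ^ (1 - ε) → Odd e →
    (e : ℝ) ≤ (D : ℝ) ^ (ε / 4) →
    |(∑ p ∈ pr P Q, (cnt s N c d h e (p * β) : ℝ)) - (pr P Q).card * (s * (d - c) / e)| ≤
      (D : ℝ) ^ (1 - 3 * ε / 2)

/-- number of the prime divisors of `n` in `S` -/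
def om (S : Finset ℕ) (n : ℕ) : ℕ := (S.filter fun p => p ∣ n).card

/-- sum of the reciprocals of the elements of `S` -/
noncomputable def WW (S : Finset ℕ) : ℝ := ∑ p ∈ S, (1 : ℝ) / p

/-- pairs (u, v)` in the box (aN, bN] × (cN, dN], both `≡ h mod 2`, with `‖u v α‖ < s/N` -/
noncomputable def TQ (s : ℝ) (N : ℕ) (a b c d : ℝ) (h : ℕ) (α : ℝ) : Finset (ℕ × ℕ) :=
  (Icc 1 (2 * N) ×ˢ Icc 1 (2 * N)).filter fun x => a * N < x.1 ∧ (x.1 : ℝ) ≤ b * N ∧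
    c * N < x.2 ∧ (x.2 : ℝ) ≤ d * N ∧ x.1 % 2 = h ∧ x.2 % 2 = h ∧ nd (x.1 * x.2 * α) < s / N

/-- integer points `z ≠ 0` in a box, in the parallelogram `X(z) ∈ (x₀, x₁], `|Y(z)| < y₁`, and with
congruence conditions on `z · V` -/
noncomputable def KK (R : ℕ) (ξ₁ ξ₂ t x₀ x₁ y₁ : ℝ) (h e : ℕ) (V₁ V₂ : ℤ) : Finset (ℤ × ℤ) :=
  (Icc (-R : ℤ) R ×ˢ Icc (-R : ℤ) R).filter fun z => z ≠ 0 ∧ x₀ < ξ₁ * z.1 + ξ₂ * z.2 ∧
    ξ₁ * z.1 + ξ₂ * z.2 ≤ x₁ ∧ |ξ₁ * t * z.1 + (ξ₂ * t - 1 / ξ₁) * z.2| < y₁ ∧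
    (z.1 * V₁ + z.2 * V₂) % 2 = h ∧ (e : ℤ) ∣ z.1 * V₁ + z.2 * V₂

/-- number of the points `z ∈ K` with `p ∣ z · V` -/
def XX (K : Finset (ℤ × ℤ)) (p : ℕ) (V₁ V₂ : ℤ) : ℕ :=
  (K.filter fun z => (p : ℤ) ∣ z.1 * V₁ + z.2 * V₂).card

/-- the outer (`b = true`) and the inner (`b = false`) set of points, for `D`-dependent grid
parameters `ξ₁, ξ₂, t = i D^(-7ε)` and margin `D^(1/2-2ε)` -/
noncomputable def KS (b : Bool) (s c d ε : ℝ) (D P Q h e : ℕ) (i₁ i₂ i₃ V₁ V₂ : ℤ) :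
    Finset (ℤ × ℤ) :=
  if b then
    KK ⌊(D : ℝ) ^ (1 / 2 + 2 * ε)⌋₊ (i₁ * (D : ℝ) ^ (-(7 * ε))) (i₂ * (D : ℝ) ^ (-(7 * ε)))
      (i₃ * (D : ℝ) ^ (-(7 * ε))) (c * P / √D - (D : ℝ) ^ (1 / 2 - 2 * ε))
      (d * Q / √D + (D : ℝ) ^ (1 / 2 - 2 * ε)) (s * √D + (D : ℝ) ^ (1 / 2 - 2 * ε)) h e V₁ V₂
  else
    KK ⌊(D : ℝ) ^ (1 / 2 + 2 * ε)⌋₊ (i₁ * (D : ℝ) ^ (-(7 * ε))) (i₂ * (D : ℝ) ^ (-(7 * ε)))
      (i₃ * (D : ℝ) ^ (-(7 * ε))) (c * Q / √D + (D : ℝ) ^ (1 / 2 - 2 * ε))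
      (d * P / √D - (D : ℝ) ^ (1 / 2 - 2 * ε)) (s * √D - (D : ℝ) ^ (1 / 2 - 2 * ε)) h e V₁ V₂

open scoped Classical in
/-- the `m ≤ 2N/D` for which the lattice of `m α` is not generic -/
noncomputable def nonGen (N D : ℕ) (ε α : ℝ) : Finset ℕ :=
  (Icc 1 (2 * N / D)).filter fun m : ℕ => ¬ Gen N D ((D : ℝ) ^ (-ε)) (m * α)

open scoped Classical in
/-- the `m ≤ 2N/D` for which the lattice of `m α` is generic but not good -/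
noncomputable def badGen (s : ℝ) (N : ℕ) (c d : ℝ) (h : ℕ) (ε : ℝ) (D : ℕ) (α : ℝ) : Finset ℕ :=
  (Icc 1 (2 * N / D)).filter fun m : ℕ =>
    Gen N D ((D : ℝ) ^ (-ε)) (m * α) ∧ ¬ Good s N c d h ε D (m * α)

/-- all prime divisors are at most `z` -/
def Smooth (z e : ℕ) : Prop := ∀ p : ℕ, p.Prime → p ∣ e → p ≤ z

open scoped Classical in
/-- the `z`-smooth numbers in (E, E'] -/
noncomputable def smo (z E E' : ℕ) : Finset ℕ := (Ioc E E').filter (Smooth z)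

/-- the `u ∈ (aN, bN], `u ≡ h mod 2`, with a prime divisor in (P, Q] -/
noncomputable def uS (N : ℕ) (a b : ℝ) (h P Q : ℕ) : Finset ℕ :=
  (Icc 1 (2 * N)).filter fun u : ℕ => a * N < u ∧ (u : ℝ) ≤ b * N ∧ u % 2 = h ∧
    1 ≤ om (pr P Q) u

/-- number of the `u ∈ (aN, bN], `u ≡ h mod 2`, without prime divisors in (P, Q], with
`‖u β‖ < s/N` -/
noncomputable def cntr (s : ℝ) (N : ℕ) (a b : ℝ) (h P Q : ℕ) (β : ℝ) : ℕ :=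
  ((Icc 1 (2 * N)).filter fun u : ℕ =>
    a * N < u ∧ (u : ℝ) ≤ b * N ∧ u % 2 = h ∧ nd (u * β) < s / N ∧ om (pr P Q) u = 0).card

/-- control of the dilates `m α` at the scales `2^j`, `j₀ ≤ j < j₁` -/
def Ctrl (ε s : ℝ) (N : ℕ) (c d : ℝ) (h : ℕ) (α : ℝ) (j₀ j₁ : ℕ) : Prop :=
  (2 : ℝ) ^ j₁ ≤ (N : ℝ) ^ (ε / 8) ∧ ∀ j D : ℕ, j₀ ≤ j → j < j₁ → D = 2 ^ j →
    ∑ m ∈ nonGen N D ε α, ∑ p ∈ pr D (2 * D), ((cnt0 s N (p * (m * α)) : ℝ) + 1) ≤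
      N * (D : ℝ) ^ (-ε) ∧
    (∀ β : ℝ, Gen N D ((D : ℝ) ^ (-ε)) β →
      ∑ p ∈ pr D (2 * D), ((cnt0 s N (p * β) : ℝ) + 1) ≤ (N : ℝ) ^ (ε / 4)) ∧
    ((badGen s N c d h ε D α).card : ℝ) ≤ (N : ℝ) ^ (1 - ε)

/-- the contribution of the `u` divisible by the square of a prime in (P, Q] -/
noncomputable def sqs (s : ℝ) (N P Q : ℕ) (α : ℝ) : ℝ :=
  ∑ p ∈ pr P Q, ∑ u ∈ (Icc 1 (2 * N)).filter (fun u : ℕ => p ^ 2 ∣ u), (cnt0 s N (u * α) : ℝ)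

/-- covering by intervals -/
def CovI (S : Set ℝ) (n δ : ℝ) : Prop :=
  ∃ t : Finset ℝ, (t.card : ℝ) ≤ n ∧ ∀ x ∈ S, ∃ y ∈ t, |x - y| ≤ δ

/-- the normalised pair correlation count -/
noncomputable def RN (s : ℝ) (N : ℕ) (α : ℝ) : ℝ :=
  (((Icc 1 N ×ˢ Icc 1 N).filter fun p : ℕ × ℕ => p.1 ≠ p.2 ∧
    nd ((p.1 : ℝ) ^ 2 * α - (p.2 : ℝ) ^ 2 * α) < s / N).card : ℝ) / N

end Pool.Agent.Helper7.PC
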