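import Pool.Agent.Helper7.PC.Defs

/-!
Statements of the modules of the pair correlation project, as propositions.
A module proves `theorem X (h1 : StA) ... : StX`, where `StA, ...` are the statements it uses.
-/

set_option linter.unusedVariables false

open Finset

namespace Pool.Agent.Helper7.PC

/-- N1 (prime_recip_lower) -/
def StN1 : Prop :=
  ∀ (a b : ℝ) (ha : 0 < a) (hab : a < b) (hb : b ≤ 1),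
    ∃ c > (0 : ℝ), ∃ N₀ : ℕ, ∀ N : ℕ, N₀ ≤ N → ∀ P Q : ℕ,
      (P : ℝ) ≤ Real.exp (Real.log N ^ a) → Real.exp (Real.log N ^ b) ≤ Q + 1 →
      c * Real.log (Real.log N) ≤ WW (pr P Q)

/-- N2 (smooth_recip) -/
def StN2 : Prop :=
  ∃ C > (0 : ℝ), ∀ z E : ℕ, 2 ≤ z →
    ∑ e ∈ smo z 0 E, (1 : ℝ) / e ≤ C * Real.log z ^ (9 / 5 : ℝ)

/-- N2t (smooth_tail) -/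
def StN2t : Prop :=
  ∃ C > (0 : ℝ), ∀ z E E' : ℕ, ∀ δ : ℝ, 2 ≤ z → 1 ≤ E → 0 < δ → δ ≤ 1 / 2 →
    ∑ e ∈ smo z E E', (1 : ℝ) / e ≤ (E : ℝ) ^ (-δ) * Real.exp (C * (z : ℝ) ^ δ / δ)

/-- N3 (tau_le) -/
def StN3 : Prop :=
  ∀ (ε : ℝ) (hε : 0 < ε),
    ∃ C ≥ (1 : ℝ), ∀ n : ℕ, 1 ≤ n →
    (n.divisors.card : ℝ) ≤ C * (n : ℝ) ^ ε

/-- N4 (landreau) -/
def StN4 : Prop :=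
  ∀ (k : ℕ) (hk : 1 ≤ k) (x : ℝ) (n : ℕ) (hn : 1 ≤ n) (hx : (n : ℝ) ≤ x),
    (n.divisors.card : ℝ) ≤ 2 ^ k *
      ∑ d ∈ n.divisors.filter (fun d : ℕ => (d : ℝ) ≤ x ^ ((1 : ℝ) / k)),
        (d.divisors.card : ℝ) ^ (2 * k)

/-- N4s (sum_tau_pow) -/
def StN4s : Prop :=
  ∀ (j D : ℕ),
    ∑ d ∈ Icc 1 D, (d.divisors.card : ℝ) ^ j / d ≤
    (1 + Real.log D) ^ (2 ^ j)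

/-- N5 (turan) -/
def StN5 : Prop :=
  ∀ (S : Finset ℕ) (hS : ∀ p ∈ S, p.Prime) (M : ℕ),
    ∑ m ∈ Icc 1 M, ((om S m : ℝ) - WW S) ^ 2 ≤ M * WW S + 2 * WW S * S.card

/-- D1 (bohr_count) -/
def StD1 : Prop :=
  ∀ (η : ℝ) (hη : 0 < η),
    ∃ ε₀ > (0 : ℝ), ∀ c₀ > (0 : ℝ), ∃ N₀ : ℕ, ∀ N : ℕ,
    N₀ ≤ N → ∀ α : ℝ, Dio c₀ ε₀ α → ∀ d : ℕ, 1 ≤ d → (d : ℝ) ≤ (N : ℝ) ^ η →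
      ∀ Y δ : ℝ, 0 < δ → δ ≤ 1 / 2 → Y ≤ (N : ℝ) ^ (3 : ℝ) → (N : ℝ) ^ (5 * η) ≤ Y * δ →
      |(((Icc 1 ⌊Y⌋₊).filter fun n : ℕ => nd (n * (d * α)) < δ).card : ℝ) - 2 * Y * δ| ≤
        Y * δ * (N : ℝ) ^ (-η)

/-- D2 (bohr_tau) ; uses StD1, StN4, StN4s -/
def StD2 : Prop :=
  ∀ (η : ℝ) (hη : 0 < η) (hη1 : η ≤ 1),
    ∃ ε₀ > (0 : ℝ), ∃ C : ℝ, ∀ c₀ > (0 : ℝ),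
    ∃ N₀ : ℕ, ∀ N : ℕ, N₀ ≤ N → ∀ α : ℝ, Dio c₀ ε₀ α → ∀ d : ℕ, 1 ≤ d →
      (d : ℝ) ≤ (N : ℝ) ^ (η / 16) → ∀ Y δ : ℝ, 0 < δ → δ ≤ 1 / 2 →
      Y ≤ (N : ℝ) ^ (5 / 2 : ℝ) → (N : ℝ) ^ η ≤ Y * δ →
      ∑ n ∈ (Icc 1 ⌊Y⌋₊).filter (fun n : ℕ => nd (n * (d * α)) < δ), (n.divisors.card : ℝ) ≤
        Real.log N ^ C * (Y * δ)

/-- D3 (lattice_count) -/
def StD3 : Prop :=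
  ∀ (β δ X u : ℝ) (r : ℕ) (b : ℤ) (hr : 1 ≤ r) (hrb : IsCoprime (r : ℤ) b)
    (hδ : 0 < δ) (hδ' : δ ≤ 1 / 2) (hX : 0 ≤ X) (hu : 0 ≤ u)
    (h : ∀ j : ℕ, (j : ℝ) * |r * β - b| ≤ 2 * δ → (r : ℝ) * j ≤ X → (j : ℝ) ≤ u),
    (((Icc 1 ⌊X⌋₊).filter fun V : ℕ => nd (V * β) < δ).card : ℝ) ≤
      (2 * (r * δ + X * |r * β - b|) + 1) * (2 * u + 1)

/-- D4a (nongen_m) ; uses StD3 -/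
def StD4a : Prop :=
  ∀ (ε s : ℝ) (hε : 0 < ε) (hε1 : ε ≤ 1 / 8) (hs : 0 < s),
    ∃ C > (0 : ℝ), ∃ N₀ : ℕ,
    ∀ N : ℕ, N₀ ≤ N → ∀ D : ℕ, 2 ≤ D → (D : ℝ) ≤ (N : ℝ) ^ (ε / 8) → ∀ β : ℝ,
      (∀ r : ℕ, 1 ≤ r → 0 < nd (r * β)) → ¬ Gen N D ((D : ℝ) ^ (-ε)) β →
      ∃ r : ℕ, 1 ≤ r ∧ (r : ℝ) ≤ (D : ℝ) ^ (-ε) * (N * √D) ∧
        nd (r * β) ≤ (D : ℝ) ^ (-ε) / (N * √D) ∧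
        ∑ p ∈ pr D (2 * D), ((cnt0 s N (p * β) : ℝ) + 1) ≤
          C * Real.log N * (D : ℝ) ^ (1 / 2 - ε) * min ((N : ℝ) * D / r) (1 / (N * nd (r * β)))

open scoped Classical in
/-- D4b (weighted_sum) ; uses StD2 -/
def StD4b : Prop :=
  ∃ ε₀ > (0 : ℝ), ∃ C : ℝ, ∀ c₀ > (0 : ℝ), ∃ N₀ : ℕ, ∀ N : ℕ, N₀ ≤ N →
    ∀ α : ℝ, Dio c₀ ε₀ α → ∀ Λ : ℝ, (N : ℝ) ^ (-1 / 4 : ℝ) ≤ Λ → Λ ≤ 1 →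
      ∑ n ∈ (Icc 1 (2 * N ^ 2)).filter (fun n : ℕ => (n : ℝ) ≤ 2 * Λ * N ^ 2 ∧
          nd (n * α) ≤ Λ / N),
        (n.divisors.card : ℝ) * min (2 * (N : ℝ) ^ 2 / n) (1 / (N * nd (n * α))) ≤
      Real.log N ^ C * (Λ * N)

/-- D4 (nongen_sum) ; uses StD4a, StD4b -/
def StD4 : Prop :=
  ∀ (ε : ℝ) (hε : 0 < ε) (hε1 : ε ≤ 1 / 8),
    ∃ ε₀ > (0 : ℝ), ∃ A : ℝ,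
    ∀ s > (0 : ℝ), ∀ c₀ > (0 : ℝ), ∃ N₀ : ℕ, ∀ N : ℕ, N₀ ≤ N → ∀ α : ℝ, Dio c₀ ε₀ α →
      ∀ D : ℕ, Real.log N ^ A ≤ D → (D : ℝ) ≤ (N : ℝ) ^ (ε / 8) →
      ∑ m ∈ nonGen N D ε α, ∑ p ∈ pr D (2 * D), ((cnt0 s N (p * (m * α)) : ℝ) + 1) ≤
        N * (D : ℝ) ^ (-ε)

/-- D5 (gen_bound) ; uses StD3 -/
def StD5 : Prop :=
  ∀ (ε s : ℝ) (hε : 0 < ε) (hε1 : ε ≤ 1 / 8) (hs : 0 < s),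
    ∃ N₀ : ℕ, ∀ N : ℕ,
    N₀ ≤ N → ∀ D : ℕ, 2 ≤ D → (D : ℝ) ≤ (N : ℝ) ^ (ε / 8) → ∀ β : ℝ,
      Gen N D ((D : ℝ) ^ (-ε)) β →
      ∑ p ∈ pr D (2 * D), ((cnt0 s N (p * β) : ℝ) + 1) ≤ (N : ℝ) ^ (ε / 4)

/-- D6 (sq_sum) ; uses StD2 -/
def StD6 : Prop :=
  ∀ (ε : ℝ) (hε : 0 < ε) (hε1 : ε ≤ 1 / 8),
    ∃ ε₀ > (0 : ℝ), ∃ A : ℝ,
    ∀ s > (0 : ℝ), ∀ c₀ > (0 : ℝ), ∃ N₀ : ℕ, ∀ N : ℕ, N₀ ≤ N → ∀ α : ℝ, Dio c₀ ε₀ α →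
      ∀ P Q : ℕ, Real.log N ^ A ≤ P → (Q : ℝ) ≤ (N : ℝ) ^ (ε / 8) →
      sqs s N P Q α ≤ N / Real.log N

/-- D7a (pair_mult) -/
def StD7a : Prop :=
  ∀ (P₀ P₁ n k : ℕ) (hn : 1 ≤ n) (h : P₀ ≤ P₁) (hk : n < (P₁ + 1) ^ (k + 1)),
    ((n.divisorsAntidiagonal.filter fun x : ℕ × ℕ => om (pr P₀ P₁) x.1 = 0).card : ℝ) ≤
      2 ^ k * (smo P₀ 0 n ∩ n.divisors).card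

/-- D7b (two_sieve) -/
def StD7b : Prop :=
  ∀ (B S₁ S₂ : Finset ℕ) (h₁ : ∀ p ∈ S₁, p.Prime) (h₂ : ∀ p ∈ S₂, p.Prime)
    (hd : Disjoint S₁ S₂) (hW₁ : 1 ≤ WW S₁) (hW₂ : 1 ≤ WW S₂) (X κ : ℝ) (hX : 0 ≤ X) (hκ : 0 ≤ κ)
    (h : ∀ p ∈ insert 1 S₁, ∀ p' ∈ insert 1 S₁, ∀ q ∈ insert 1 S₂, ∀ q' ∈ insert 1 S₂,
      |((B.filter fun n : ℕ => p ∣ n ∧ p' ∣ n ∧ q ∣ n ∧ q' ∣ n).card : ℝ) -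
        X / (p.lcm p' * q.lcm q')| ≤ κ * X / (p.lcm p' * q.lcm q')),
    ((B.filter fun n : ℕ => om S₁ n = 0 ∧ om S₂ n = 0).card : ℝ) ≤
      X / (WW S₁ * WW S₂) + 36 * κ * X

/-- D7c (rough_sum) ; uses StD1, StN1, StN2, StD7b -/
def StD7c : Prop :=
  ∀ (A : ℝ) (hA : 1 ≤ A),
    ∃ ε₀ > (0 : ℝ), ∀ s > (0 : ℝ), ∀ c₀ > (0 : ℝ),
    ∀ η > (0 : ℝ), ∃ N₀ : ℕ, ∀ N : ℕ, N₀ ≤ N → ∀ α : ℝ, Dio c₀ ε₀ α → ∀ P₀ E Pa P₁ : ℕ,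
      (P₀ : ℝ) ≤ Real.log N ^ A → (E : ℝ) ≤ (N : ℝ) ^ (1 / 100 : ℝ) →
      (Pa : ℝ) ≤ Real.exp (Real.log N ^ (3 / 5 : ℝ)) →
      Real.exp (Real.log N ^ (4 / 5 : ℝ)) ≤ P₁ →
      ∑ e ∈ smo P₀ 0 E, (((Icc 1 (4 * N ^ 2)).filter fun n : ℕ => e ∣ n ∧ nd (n * α) < s / N ∧
        om (pr Pa P₁) n = 0).card : ℝ) ≤ η * N

open scoped Classical in
/-- D7d (smooth_part_tail) ; uses StD1, StN2t, StN3 -/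
def StD7d : Prop :=
  ∀ (A : ℝ) (hA : 1 ≤ A),
    ∃ ε₀ > (0 : ℝ), ∀ s > (0 : ℝ), ∀ c₀ > (0 : ℝ),
    ∃ N₀ : ℕ, ∀ N : ℕ, N₀ ≤ N → ∀ α : ℝ, Dio c₀ ε₀ α → ∀ P₀ : ℕ,
      (P₀ : ℝ) ≤ Real.log N ^ A →
      ∑ n ∈ (Icc 1 (4 * N ^ 2)).filter (fun n : ℕ => nd (n * α) < s / N ∧
        ∃ e : ℕ, e ∣ n ∧ Smooth P₀ e ∧ (N : ℝ) ^ (1 / 100 : ℝ) < e), (n.divisors.card : ℝ) ≤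
        (N : ℝ) ^ (1 - 1 / (1000 * A))

/-- D7 (rough_pairs) ; uses StD7a, StD7c, StD7d -/
def StD7 : Prop :=
  ∀ (A κ : ℝ) (hA : 1 ≤ A) (hκ : 0 < κ),
    ∃ ε₀ > (0 : ℝ), ∀ s > (0 : ℝ),
    ∀ c₀ > (0 : ℝ), ∀ η > (0 : ℝ), ∃ N₀ : ℕ, ∀ N : ℕ, N₀ ≤ N → ∀ α : ℝ, Dio c₀ ε₀ α →
      ∀ P₀ Pa P₁ : ℕ, (P₀ : ℝ) ≤ Real.log N ^ A →
      (Pa : ℝ) ≤ Real.exp (Real.log N ^ (3 / 5 : ℝ)) → (N : ℝ) ^ κ ≤ P₁ →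
      (((Icc 1 (2 * N) ×ˢ Icc 1 (2 * N)).filter fun x : ℕ × ℕ =>
        nd (x.1 * x.2 * α) < s / N ∧ om (pr P₀ P₁) x.1 = 0 ∧ om (pr Pa P₁) x.2 = 0).card : ℝ) ≤
        η * N

/-- G1 (farey_basis) -/
def StG1 : Prop :=
  ∀ (V₀ ρ β : ℝ) (hρ : 0 < ρ) (hρ1 : ρ ≤ 1) (hV : 1 ≤ ρ * V₀)
    (hgen : ∀ r : ℕ, 1 ≤ r → (r : ℝ) ≤ ρ * V₀ → ρ / V₀ < nd (r * β)),
    ∃ (V₁ V₂ : ℕ) (W₁ W₂ : ℤ), ρ * V₀ < V₁ ∧ (V₁ : ℝ) ≤ V₀ / ρ ∧ V₂ < V₁ ∧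
      (V₁ : ℤ) * W₂ - V₂ * W₁ = 1 ∧ |V₁ * β - W₁| ≤ ρ / V₀

/-- G2 (cnt_sandwich) -/
def StG2 : Prop :=
  ∀ (s c d ρ τ σ β : ℝ) (N D P Q R h e p : ℕ) (V₁ V₂ : ℕ) (W₁ W₂ : ℤ)
    (ξ₁ ξ₂ t : ℝ) (hs : 0 < s) (hc : 0 ≤ c) (hcd : c < d) (hd : d ≤ 2) (hN : 2 * s ≤ N)
    (hN1 : 1 ≤ N) (hh : h < 2) (he : Odd e)
    (hD : 3 ≤ D) (hDP : D ≤ P) (hQ : Q ≤ 2 * D) (hp : p.Prime) (hPp : P < p) (hpQ : p ≤ Q)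
    (hep : e < p) (hρ : 0 < ρ) (hρ1 : ρ ≤ 1)
    (hV1 : ρ * (N * √D) < V₁) (hV1' : (V₁ : ℝ) ≤ N * √D / ρ) (hV2 : V₂ < V₁)
    (hdet : (V₁ : ℤ) * W₂ - V₂ * W₁ = 1) (hβ : |V₁ * β - W₁| ≤ ρ / (N * √D))
    (hξ₁ : |V₁ / (N * √D) - ξ₁| ≤ τ) (hξ₂ : |V₂ / (N * √D) - ξ₂| ≤ τ)
    (ht : |(N * √D) ^ 2 * (β - W₁ / V₁) - t| ≤ τ) (hτ : τ ≤ ρ / 2)
    (hR : 4 * (8 + s) * √D / ρ ≤ R) (hσ : 20 * τ * R / ρ ^ 2 ≤ σ) (hσ1 : σ ≤ √D),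
    (XX (KK R ξ₁ ξ₂ t (c * Q / √D + σ) (d * P / √D - σ) (s * √D - σ) h e V₁ V₂) p V₁ V₂ : ℝ) ≤
      cnt s N c d h e (p * β) ∧
    (cnt s N c d h e (p * β) : ℝ) ≤
      XX (KK R ξ₁ ξ₂ t (c * P / √D - σ) (d * Q / √D + σ) (s * √D + σ) h e V₁ V₂) p V₁ V₂

/-- G3 (KK_card) -/
def StG3 : Prop :=
  ∀ (R h e : ℕ) (ξ₁ ξ₂ t x₀ x₁ y₁ ρ : ℝ) (V₁ V₂ : ℤ) (hh : h < 2) (he : Odd e)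
    (hV : IsCoprime V₁ V₂) (hρ : 0 < ρ) (hρ1 : ρ ≤ 1) (hξ₁ : ρ / 2 ≤ ξ₁) (hξ₁' : ξ₁ ≤ 2 / ρ)
    (hξ₂ : |ξ₂| ≤ 2 / ρ) (ht : |t| ≤ 2) (hx : x₀ ≤ x₁) (hy : 0 ≤ y₁)
    (hR : 20 / ρ * (|x₀| + |x₁| + y₁) ≤ R),
    |((KK R ξ₁ ξ₂ t x₀ x₁ y₁ h e V₁ V₂).card : ℝ) - (x₁ - x₀) * y₁ / e| ≤
      100 / ρ * (x₁ - x₀ + y₁ + 100 * e / ρ) + 1

/-- G4 (XX_bounds) ; uses StN3 -/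
def StG4 : Prop :=
  ∀ (η : ℝ) (hη : 0 < η),
    ∃ C ≥ (1 : ℝ), ∀ (R p : ℕ) (K : Finset (ℤ × ℤ)),
    p.Prime → 1 ≤ R → 2 * R + 1 ≤ p → (∀ z ∈ K, z ≠ 0 ∧ |z.1| ≤ R ∧ |z.2| ≤ R) →
    (∀ V₁ V₂ : ℤ, ¬ ((p : ℤ) ∣ V₁ ∧ (p : ℤ) ∣ V₂) → XX K p V₁ V₂ ≤ 2 * R + 1) ∧
    (∑ a ∈ (range p ×ˢ range p).filter (fun a : ℕ × ℕ => a ≠ 0),
      (XX K p a.1 a.2 : ℝ)) = ((p : ℝ) - 1) * K.card ∧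
    (∑ a ∈ (range p ×ˢ range p).filter (fun a : ℕ × ℕ => a ≠ 0),
      (XX K p a.1 a.2 : ℝ) ^ 2) ≤ C * p * (R : ℝ) ^ (2 + η) * ((R : ℝ) ^ 2 / p + 1)

/-- P1a (spline) -/
def StP1a : Prop :=
  ∀ (j : ℕ) (hj : 1 ≤ j),
    ∃ C > (0 : ℝ), ∀ (L : ℕ) (y₁ y₂ : ℤ), 1 ≤ L →
    ∃ (U : Finset (ℤ × ℤ)) (w : ℤ × ℤ → ℝ), (∀ x ∈ U, 0 ≤ w x) ∧
      (∀ x ∈ Ico y₁ (y₁ + L) ×ˢ Ico y₂ (y₂ + L), x ∈ U ∧ 1 ≤ w x) ∧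
      ∑ x ∈ U, w x ≤ C * (L : ℝ) ^ 2 ∧
      ∀ (q : ℕ) (B : ℝ) (G : ℤ → ℤ → ℝ), 1 ≤ q → q ≤ L →
        (∀ a b, G (a + q) b = G a b ∧ G a (b + q) = G a b) → (∀ a b, |G a b| ≤ B) →
        |∑ x ∈ U, w x * G x.1 x.2 -
          (∑ x ∈ U, w x) * ((∑ a ∈ range q, ∑ b ∈ range q, G a b) / (q : ℝ) ^ 2)| ≤
          C * (L : ℝ) ^ 2 * ((q : ℝ) / L) ^ j * B

/-- P1b (mean_prod) -/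
def StP1b : Prop :=
  ∀ (n : ℕ) (f : Fin n → ℕ) (hf : ∀ i, (f i).Prime) (g : ℕ → ℤ → ℤ → ℝ) (B v : ℝ)
    (hB : 0 ≤ B) (hv : 0 ≤ v)
    (hper : ∀ i, ∀ a b, g (f i) (a + f i) b = g (f i) a b ∧ g (f i) a (b + f i) = g (f i) a b)
    (hgB : ∀ i, ∀ a b, |g (f i) a b| ≤ B)
    (h0 : ∀ i, ∑ a ∈ range (f i), ∑ b ∈ range (f i), g (f i) a b = 0)
    (h2 : ∀ i, ∑ a ∈ range (f i), ∑ b ∈ range (f i), g (f i) a b ^ 2 ≤ v * (f i : ℝ) ^ 2)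
    (q : ℕ) (hq : q = ∏ p ∈ univ.image f, p),
    (∀ a b, (∏ i, g (f i) (a + q) b) = ∏ i, g (f i) a b ∧
      (∏ i, g (f i) a (b + q)) = ∏ i, g (f i) a b) ∧
    ((∃ i, ∀ i', f i' = f i → i' = i) →
      ∑ a ∈ range q, ∑ b ∈ range q, ∏ i, g (f i) a b = 0) ∧
    ((∀ i, ∃ i', i' ≠ i ∧ f i' = f i) →
      |∑ a ∈ range q, ∑ b ∈ range q, ∏ i, g (f i) a b| ≤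
        (q : ℝ) ^ 2 * (B ^ (n - 2 * (univ.image f).card) * v ^ (univ.image f).card))

/-- P1 (moment) ; uses StP1a, StP1b -/
def StP1 : Prop :=
  ∀ (j : ℕ) (hj : 1 ≤ j),
    ∃ C > (0 : ℝ), ∀ (S : Finset ℕ) (Z k L : ℕ) (B Γ T : ℝ)
    (g : ℕ → ℤ → ℤ → ℝ) (y₁ y₂ : ℤ),
    (∀ p ∈ S, p.Prime ∧ p ≤ Z) → 1 ≤ k → 1 ≤ L → 1 ≤ B → B ^ 2 ≤ Γ → 0 < T →
    (∀ p ∈ S, ∀ a b, g p (a + p) b = g p a b ∧ g p a (b + p) = g p a b) →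
    (∀ p ∈ S, ∀ a b, |g p a b| ≤ B) →
    (∀ p ∈ S, ∑ a ∈ range p, ∑ b ∈ range p, g p a b = 0) →
    (∀ p ∈ S, (S.card : ℝ) * ∑ a ∈ range p, ∑ b ∈ range p, g p a b ^ 2 ≤ Γ * (p : ℝ) ^ 2) →
    Z ^ (2 * k) ≤ L →
    (((Ico y₁ (y₁ + L) ×ˢ Ico y₂ (y₂ + L)).filter fun x : ℤ × ℤ =>
      T ≤ |∑ p ∈ S, g p x.1 x.2|).card : ℝ) * T ^ (2 * k) ≤
      C * (L : ℝ) ^ 2 * ((2 * k : ℝ) ^ (2 * k + 1) * Γ ^ k +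
        (S.card : ℝ) ^ (2 * k) * B ^ (2 * k) * ((Z : ℝ) ^ (2 * k) / L) ^ j)

open scoped Classical in
/-- P2 (fixed_count) ; uses StG4, StP1 -/
def StP2 : Prop :=
  ∃ K₁ : ℝ, 1 ≤ K₁ ∧ ∀ ε : ℝ, 0 < ε → ε ≤ 1 / K₁ → ∃ A : ℝ, ∃ N₀ : ℕ,
    ∀ N : ℕ, N₀ ≤ N → ∀ D : ℕ, Real.log N ^ A ≤ D → (D : ℝ) ≤ (N : ℝ) ^ (ε / 8) →
    ∀ P Q e R : ℕ, D ≤ P → P ≤ Q → Q ≤ 2 * D → (Q : ℝ) ≤ P + (D : ℝ) ^ (1 - ε) → 1 ≤ e →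
      e ≤ D → 1 ≤ R → (R : ℝ) ≤ (D : ℝ) ^ (1 / 2 + 2 * ε) → ∀ K : Finset (ℤ × ℤ),
      (∀ z ∈ K, z ≠ 0 ∧ |z.1| ≤ R ∧ |z.2| ≤ R) → ∀ r₁ r₂ : ℤ,
      (((Icc (0 : ℤ) ⌊(N : ℝ) ^ (1 + ε)⌋ ×ˢ Icc (0 : ℤ) ⌊(N : ℝ) ^ (1 + ε)⌋).filter
        fun V : ℤ × ℤ => IsCoprime V.1 V.2 ∧ (2 * e : ℤ) ∣ V.1 - r₁ ∧ (2 * e : ℤ) ∣ V.2 - r₂ ∧
          (D : ℝ) ^ (1 - 3 * ε / 2) / 4 ≤ |(∑ p ∈ pr P Q, (XX K p V.1 V.2 : ℝ)) -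
            K.card * ∑ p ∈ pr P Q, ((p : ℝ) - 1) / (p : ℝ) ^ 2|).card : ℝ) ≤
        (N : ℝ) ^ (3 / 2 + K₁ * ε)

/-- P3a (dev_exists) ; uses StG1, StG2, StG3 -/
def StP3a : Prop :=
  ∀ (ε s c d : ℝ) (hε : 0 < ε) (hε1 : ε ≤ 1 / 100) (hs : 0 < s) (hc : 0 ≤ c)
    (hcd : c < d) (hd : d ≤ 2) (h : ℕ) (hh : h < 2),
    ∃ D₀ : ℕ, ∀ D N : ℕ, D₀ ≤ D →
    (D : ℝ) ≤ (N : ℝ) ^ (ε / 8) → ∀ β : ℝ, Gen N D ((D : ℝ) ^ (-ε)) β → ¬ Good s N c d h ε D β →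
    ∃ P Q e : ℕ, D ≤ P ∧ P ≤ Q ∧ Q ≤ 2 * D ∧ (Q : ℝ) ≤ P + (D : ℝ) ^ (1 - ε) ∧ Odd e ∧
      (e : ℝ) ≤ (D : ℝ) ^ (ε / 4) ∧ ∃ (V₁ V₂ : ℕ) (W₁ : ℤ), (V₁ : ℝ) ≤ (N : ℝ) ^ (1 + ε) ∧
        V₂ < V₁ ∧ V₁.Coprime V₂ ∧ (V₁ : ℤ) ∣ V₂ * W₁ + 1 ∧ |β - W₁ / V₁| ≤ (N : ℝ) ^ (-2 : ℝ) ∧
        ∃ (b : Bool) (i₁ i₂ i₃ : ℤ), (|i₁| : ℝ) ≤ (D : ℝ) ^ (9 * ε) ∧
          (|i₂| : ℝ) ≤ (D : ℝ) ^ (9 * ε) ∧ (|i₃| : ℝ) ≤ (D : ℝ) ^ (9 * ε) ∧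
          (D : ℝ) ^ (1 - 3 * ε / 2) / 4 ≤
            |(∑ p ∈ pr P Q, (XX (KS b s c d ε D P Q h e i₁ i₂ i₃ V₁ V₂) p V₁ V₂ : ℝ)) -
              (KS b s c d ε D P Q h e i₁ i₂ i₃ V₁ V₂).card *
                ∑ p ∈ pr P Q, ((p : ℝ) - 1) / (p : ℝ) ^ 2|

/-- P3 (bad_cover) ; uses StP2, StP3a -/
def StP3 : Prop :=
  ∃ K : ℝ, 1 ≤ K ∧ ∀ ε : ℝ, 0 < ε → ε ≤ 1 / K → ∀ s c d : ℝ, 0 < s → 0 ≤ c →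
    c < d → d ≤ 2 → ∀ h : ℕ, h < 2 → ∃ A : ℝ, ∃ N₀ : ℕ, ∀ N : ℕ, N₀ ≤ N → ∀ D : ℕ,
      Real.log N ^ A ≤ D → (D : ℝ) ≤ (N : ℝ) ^ (ε / 8) →
      ∃ t : Finset ℝ, (t.card : ℝ) ≤ (N : ℝ) ^ (3 / 2 + K * ε) ∧
        ∀ β : ℝ, Gen N D ((D : ℝ) ^ (-ε)) β → ¬ Good s N c d h ε D β →
          ∃ y ∈ t, nd (β - y) ≤ (N : ℝ) ^ (-2 : ℝ)

/-- L0 (sep_exp_sum) -/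
def StL0 : Prop :=
  ∃ C ≥ (1 : ℝ), ∀ (δ : ℝ) (K : ℕ) (t : Finset ℝ), 0 < δ → δ ≤ 1 →
    (∀ x ∈ t, ∀ y ∈ t, x ≠ y → δ ≤ nd (x - y)) →
    ∑ k ∈ Icc (-K : ℤ) K, ‖∑ x ∈ t, Complex.exp (2 * Real.pi * Complex.I * (k * x))‖ ^ 2 ≤
      C * (K + 1 / δ) * t.card

/-- L1 (dilate_cover) ; uses StN3, StL0 -/
def StL1 : Prop :=
  ∀ (ε : ℝ) (hε : 0 < ε),
    ∃ C ≥ (1 : ℝ), ∀ (δ R : ℝ) (M : ℕ) (t : Finset ℝ),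
    0 < δ → δ ≤ 1 → 1 ≤ M → 0 < R → C * M * t.card * δ ≤ R →
    CovI {α : ℝ | α ∈ Set.Icc (0 : ℝ) 1 ∧
        R ≤ (((Icc 1 M).filter fun m : ℕ => ∃ y ∈ t, nd (m * α - y) ≤ δ).card : ℝ)}
      (C * (M / δ) ^ ε * t.card * (M / R) ^ 2) (δ / M)

/-- R0a (ramare) -/
def StR0a : Prop :=
  ∀ (S : Finset ℕ) (hS : ∀ p ∈ S, p.Prime) (M : ℕ) (F : ℕ → ℝ) (hF : ∀ n, 0 ≤ F n),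
    |∑ u ∈ (Icc 1 M).filter (fun u : ℕ => 1 ≤ om S u), F u -
      ∑ p ∈ S, ∑ m ∈ Icc 1 (M / p), F (p * m) / (om S m + 1)| ≤
      ∑ p ∈ S, ∑ u ∈ (Icc 1 M).filter (fun u : ℕ => p ^ 2 ∣ u), F u

/-- R0b (good_interval) -/
def StR0b : Prop :=
  ∀ (ε : ℝ) (hε : 0 < ε) (hε1 : ε ≤ 1 / 8),
    ∃ D₀ : ℕ, ∀ (s c d β : ℝ)
    (N h D P Q e : ℕ), D₀ ≤ D → Good s N c d h ε D β → D ≤ P → P ≤ Q → Q ≤ 2 * D → Odd e →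
      (e : ℝ) ≤ (D : ℝ) ^ (ε / 4) →
      |(∑ p ∈ pr P Q, (cnt s N c d h e (p * β) : ℝ)) - (pr P Q).card * (s * (d - c) / e)| ≤
        4 * (D : ℝ) ^ (1 - ε / 2)

/-- R1 (main_u) ; uses StR0a, StR0b -/
def StR1 : Prop :=
  ∀ (ε s a b c d : ℝ) (hε : 0 < ε) (hε1 : ε ≤ 1 / 8) (hs : 0 < s) (ha : 0 ≤ a)
    (hab : a < b) (hb : b ≤ 2) (hc : 0 ≤ c) (hcd : c < d) (hd : d ≤ 2) (h : ℕ) (hh : h < 2),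
    ∀ η > (0 : ℝ), ∃ N₀ : ℕ, ∀ N : ℕ, N₀ ≤ N → ∀ (α : ℝ) (j₀ j₁ : ℕ), N₀ ≤ j₀ → j₀ < j₁ →
      Ctrl ε s N c d h α j₀ j₁ → sqs s N (2 ^ j₀) (2 ^ j₁) α ≤ η * N →
      |(∑ u ∈ uS N a b h (2 ^ j₀) (2 ^ j₁), (cnt s N c d h 1 (u * α) : ℝ)) -
        s * (d - c) * (uS N a b h (2 ^ j₀) (2 ^ j₁)).card| ≤ 10 * η * N

/-- R2 (main_v) ; uses StN1, StR0a, StR0b -/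
def StR2 : Prop :=
  ∀ (ε s a b c d : ℝ) (hε : 0 < ε) (hε1 : ε ≤ 1 / 8) (hs : 0 < s) (ha : 0 ≤ a)
    (hab : a < b) (hb : b ≤ 2) (hc : 0 ≤ c) (hcd : c < d) (hd : d ≤ 2) (h : ℕ) (hh : h < 2),
    ∀ η > (0 : ℝ), ∃ N₀ : ℕ, ∀ N : ℕ, N₀ ≤ N → ∀ (α : ℝ) (j₀ ja j₁ : ℕ),
      (2 : ℝ) ^ j₀ ≤ Real.exp (Real.log N ^ (1 / 6 : ℝ)) →
      Real.exp (Real.log N ^ (1 / 2 : ℝ)) ≤ (2 : ℝ) ^ ja → ja < j₁ →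
      (2 : ℝ) ^ ja ≤ Real.exp (Real.log N ^ (3 / 5 : ℝ)) →
      (N : ℝ) ^ (ε / 16) ≤ (2 : ℝ) ^ j₁ →
      Ctrl ε s N a b h α ja j₁ → sqs s N (2 ^ ja) (2 ^ j₁) α ≤ η * N →
      ∑ v ∈ uS N c d h (2 ^ ja) (2 ^ j₁),
        (cntr s N a b h (2 ^ j₀) (2 ^ j₁) (v * α) : ℝ) ≤ 10 * η * N

/-- R4 (uS_card) ; uses StN1, StN5 -/
def StR4 : Prop :=
  ∀ (κ a b : ℝ) (hκ : 0 < κ) (ha : 0 ≤ a) (hab : a < b) (hb : b ≤ 2) (h : ℕ)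
    (hh : h < 2),
    ∀ η > (0 : ℝ), ∃ N₀ : ℕ, ∀ N : ℕ, N₀ ≤ N → ∀ P Q : ℕ,
      (P : ℝ) ≤ Real.exp (Real.log N ^ (1 / 2 : ℝ)) → (N : ℝ) ^ κ ≤ Q →
      (Q : ℝ) ≤ (N : ℝ) ^ (1 / 2 : ℝ) →
      |((uS N a b h P Q).card : ℝ) - (b - a) * N / 2| ≤ η * N

/-- H1 (dim_limsup) -/
def StH1 : Prop :=
  ∀ (S : ℕ → Set ℝ) (X : ℕ → ℝ) (a b g c : ℝ) (ha : 0 < a) (hb : 0 < b)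
    (hg : 1 < g) (hc : 0 < c) (hX : ∀ j, c * g ^ j ≤ X j)
    (hS : ∀ᶠ j in Filter.atTop, CovI (S j) (X j ^ a) (X j ^ (-b))),
    dimH {x | ∃ᶠ j in Filter.atTop, x ∈ S j} ≤ ENNReal.ofReal (a / b)

/-- H2 (box_to_R) -/
def StH2 : Prop :=
  ∀ (s : ℝ) (hs : 0 < s),
    ∀ η > (0 : ℝ), ∃ H : ℕ, 1 ≤ H ∧ ∃ κ > (0 : ℝ),
    ∃ N₀ : ℕ, ∀ N : ℕ, N₀ ≤ N → ∀ α : ℝ, (∀ i j h : ℕ, i < 2 * H → j < 2 * H → h < 2 →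
      |((TQ s N ((i : ℝ) / H) (((i : ℝ) + 1) / H) ((j : ℝ) / H) (((j : ℝ) + 1) / H) h α).card : ℝ) -
        s * N / (2 * (H : ℝ) ^ 2)| ≤ κ * N) → |RN s N α - 2 * s| ≤ η

/-- H3 (ppc_of_subseq) -/
def StH3 : Prop :=
  ∀ (α : ℝ) (h : ∀ s : ℚ, 0 < s → ∀ η > (0 : ℝ), ∀ g : ℕ, 1 ≤ g →
    ∀ᶠ j : ℕ in Filter.atTop, |RN s ⌊(1 + 1 / (g : ℝ)) ^ j⌋₊ α - 2 * s| ≤ η),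
    ∀ s > (0 : ℝ), Filter.Tendsto (fun N : ℕ => RN s N α) Filter.atTop (nhds (2 * s))

/-- E1 (cov_bound) -/
def StE1 : Prop :=
  ∃ C ≥ (1 : ℝ), ∀ (n m : ℕ) (δ : ℝ), 1 ≤ n → 1 ≤ m → 0 < δ → δ ≤ 1 / 2 →
    |∫ x in (0 : ℝ)..1, ((if nd (n * x) < δ then (1 : ℝ) else 0) - 2 * δ) *
      ((if nd (m * x) < δ then (1 : ℝ) else 0) - 2 * δ)| ≤
      C * δ * (n.gcd m) / √(n * m)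

/-- E2 (variance) ; uses StN3, StE1 -/
def StE2 : Prop :=
  ∀ (ε s₁ : ℝ) (hε : 0 < ε) (hs₁ : 0 < s₁),
    ∃ N₀ : ℕ, ∀ N : ℕ, N₀ ≤ N →
    ∀ s : ℝ, 0 < s → s ≤ s₁ → ∀ U : Finset (ℕ × ℕ), U ⊆ Icc 1 (2 * N) ×ˢ Icc 1 (2 * N) →
      ∫ x in (0 : ℝ)..1, (((U.filter fun y : ℕ × ℕ => nd (y.1 * y.2 * x) < s / N).card : ℝ) -
        2 * s / N * U.card) ^ 2 ≤ (N : ℝ) ^ (1 + ε)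

/-- E3 (cover_all) ; uses StE2 -/
def StE3 : Prop :=
  ∀ (ε s a b c d : ℝ) (hε : 0 < ε) (hs : 0 < s) (ha : 0 ≤ a)
    (hab : a < b) (hb : b ≤ 2) (hc : 0 ≤ c) (hcd : c < d) (hd : d ≤ 2) (h : ℕ) (hh : h < 2),
    ∀ η > (0 : ℝ), ∃ N₀ : ℕ, ∀ N : ℕ, N₀ ≤ N →
      CovI {α : ℝ | α ∈ Set.Icc (0 : ℝ) 1 ∧ η * N <
        |((TQ s N a b c d h α).card : ℝ) - s * (b - a) * (d - c) * N / 2|}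
        ((N : ℝ) ^ (2 + ε)) ((N : ℝ) ^ (-3 : ℝ))

end Pool.Agent.Helper7.PC
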